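import Mathlib

/-!
# Zeta functions of products: definitions
-/

set_option autoImplicit false

namespace Pool.Agent.H857.HK

open Module Polynomial

/-- The value `det (1 - t φ)`. -/
noncomputable def detOf {W : Type} [AddCommGroup W] [Module ℂ W] (φ : W →ₗ[ℂ] W) (t : ℂ) : ℂ :=
  LinearMap.det (LinearMap.id - t • φ)

/-- The zeta function of a variety `Z` over the field with `Q` elements, with the cohomology groups
`W n`, `0 ≤ n ≤ N`, and the Frobenius endomorphisms `G n`:
`∏ det (1 - Q ^ (-s) G n | W n) ^ ((-1) ^ (n + 1))`. -/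
noncomputable def zetaOf (Q : ℝ) (N : ℕ) {W : ℕ → Type} [∀ n, AddCommGroup (W n)]
    [∀ n, Module ℂ (W n)] (G : ∀ n, W n →ₗ[ℂ] W n) (s : ℂ) : ℂ :=
  ∏ n ∈ Finset.range (N + 1), detOf (G n) ((Q : ℂ) ^ (-s)) ^ ((-1 : ℤ) ^ (n + 1))

/-- The zeta function of `A × Z` over the field with `Q` elements, where `A` is an abelian variety
with `H ^ 1 (A) = V`, hence `H ^ j (A) = ⋀ ^ j V`, and Frobenius endomorphism `F`, in terms of the
Kunneth formula: `∏ det (1 - Q ^ (-s) (⋀ ^ j F ⊗ G n) | ⋀ ^ j V ⊗ W n) ^ ((-1) ^ (j + n + 1))`. -/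
noncomputable def zetaTimes (Q : ℝ) {V : Type} [AddCommGroup V] [Module ℂ V] (F : V →ₗ[ℂ] V)
    (N : ℕ) {W : ℕ → Type} [∀ n, AddCommGroup (W n)] [∀ n, Module ℂ (W n)]
    (G : ∀ n, W n →ₗ[ℂ] W n) (s : ℂ) : ℂ :=
  ∏ j ∈ Finset.range (finrank ℂ V + 1), ∏ n ∈ Finset.range (N + 1),
    detOf (W := TensorProduct ℂ (⋀[ℂ]^j V) (W n)) (TensorProduct.map (exteriorPower.map j F) (G n))
      ((Q : ℂ) ^ (-s)) ^ ((-1 : ℤ) ^ (j + n + 1))

/-- The span, in `⋀ ^ (2 i) V`, of the products of `i` elements `y` of `⋀ ^ 2 V` with `F y = q y`.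
By the theorem of Tate on divisors, for an abelian variety `A` with `H ^ 1 (A) = V` these are the
linear combinations of the classes of intersections of `i` divisors. -/
noncomputable def divisorProducts (q : ℂ) {V : Type} [AddCommGroup V] [Module ℂ V]
    (F : V →ₗ[ℂ] V) (i : ℕ) : Submodule ℂ (ExteriorAlgebra ℂ V) :=
  (Submodule.span ℂ {y : ExteriorAlgebra ℂ V | y ∈ ⋀[ℂ]^2 V ∧ ExteriorAlgebra.map F y = q • y}) ^ i

/-- The formula for the poles of the zeta functions of `A × Z`. Let `V` be a finite dimensional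
complex vector space (the space `H ^ 1 (A)`), spanned by eigenvectors of the endomorphism `F` with
eigenvalues among the roots of the polynomials `f i`, let `s > 0` and let `W n`, `0 ≤ n ≤ N`, be
finite dimensional complex vector spaces (the spaces `H ^ n (Z)`, `Z` a variety over the field with
`q ^ s` elements) with endomorphisms `G n` all of whose eigenvalues have the property `R`. Let `o c`
be the order of the pole at `c` of the zeta function of `Z`. Then the order of the pole at `c` of the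
zeta function of `A × Z` over the field with `q ^ s` elements is `∑ r i * o (c - i)`, where `r i` is
the dimension of the span of the products of `i` elements `y` of `⋀ ^ 2 V` with `F y = q y`. -/
def PolesOfProducts {I : Type} (q : ℕ) (f : I → ℤ[X]) (R : ℂ → Prop) : Prop :=
  ∀ (V : Type) [AddCommGroup V] [Module ℂ V] [FiniteDimensional ℂ V] (F : V →ₗ[ℂ] V),
    Submodule.span ℂ {v : V | ∃ i, ∃ z : ℂ, aeval z (f i) = 0 ∧ F v = z • v} = ⊤ →
    ∀ (N : ℕ) (W : ℕ → Type) [∀ n, AddCommGroup (W n)] [∀ n, Module ℂ (W n)]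
      [∀ n, FiniteDimensional ℂ (W n)] (G : ∀ n, W n →ₗ[ℂ] W n),
      (∀ n ≤ N, ∀ γ : ℂ, Module.End.HasEigenvalue (G n) γ → R γ) → ∀ s : ℕ, 0 < s →
      ∃ o : ℤ → ℤ,
        (∀ c : ℤ, meromorphicOrderAt (zetaOf ((q : ℝ) ^ s) N G) (c : ℂ) =
          ((-(o c) : ℤ) : WithTop ℤ)) ∧
        ∀ c : ℤ, meromorphicOrderAt (zetaTimes ((q : ℝ) ^ s) (F ^ s) N G) (c : ℂ) =
          ((-(∑ i ∈ Finset.range (finrank ℂ V + 1),
            (finrank ℂ (divisorProducts (q : ℂ) F i) : ℤ) * o (c - i)) : ℤ) : WithTop ℤ)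

end Pool.Agent.H857.HK
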