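import Mathlib
import Pool.Graph.R_seed8.W521.Pole

/-!
# Orders of zeros of characteristic polynomials
-/

set_option autoImplicit false

namespace Pool.Agent.H857.HK

open Module Polynomial

/-- The polynomial `det (1 - t φ)` in terms of the eigenvalues. -/
theorem det_one_sub_eq {W : Type*} [AddCommGroup W] [Module ℂ W] [FiniteDimensional ℂ W]
    (φ : W →ₗ[ℂ] W) (t : ℂ) :
    LinearMap.det (1 - t • φ) = (φ.charpoly.roots.map fun γ => 1 - t * γ).prod := by
  classical
  have hcard : φ.charpoly.roots.card = finrank ℂ W := by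
    rw [← (IsAlgClosed.splits _).natDegree_eq_card_roots, LinearMap.charpoly_natDegree]
  rcases eq_or_ne t 0 with rfl | ht
  · simp
  · have h1 : (1 : W →ₗ[ℂ] W) - t • φ = t • (algebraMap ℂ (Module.End ℂ W) t⁻¹ - φ) := by
      rw [smul_sub, Algebra.algebraMap_eq_smul_one, smul_smul, mul_inv_cancel₀ ht, one_smul]
    have h2 : LinearMap.det (algebraMap ℂ (Module.End ℂ W) t⁻¹ - φ) =
        (φ.charpoly.roots.map fun γ => t⁻¹ - γ).prod := by
      have h3 : φ.charpoly = (φ.charpoly.roots.map fun γ => X - C γ).prod :=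
        (IsAlgClosed.splits _).eq_prod_roots_of_monic (LinearMap.charpoly_monic φ)
      have h4 := congrArg (Polynomial.eval t⁻¹) h3
      rw [eval_multiset_prod, Multiset.map_map] at h4
      have h5 : Polynomial.eval t⁻¹ φ.charpoly =
          LinearMap.det (algebraMap ℂ (Module.End ℂ W) t⁻¹ - φ) := by
        rw [LinearMap.charpoly, Matrix.eval_charpoly, ← LinearMap.det_toMatrix
          (Module.Free.chooseBasis ℂ W)]
        congr 1
        rw [map_sub, Algebra.algebraMap_eq_smul_one, map_smul, LinearMap.toMatrix_one]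
        ext i j
        simp [Matrix.scalar_apply, Matrix.smul_apply, Matrix.one_apply, Matrix.diagonal_apply]
      rw [← h5, h4]
      congr 1
      refine Multiset.map_congr rfl fun γ _ => ?_
      simp
    rw [h1, LinearMap.det_smul, h2, ← hcard, ← Multiset.prod_replicate, ← Multiset.map_const',
      ← Multiset.prod_map_mul]
    congr 1
    refine Multiset.map_congr rfl fun γ _ => ?_
    rw [mul_sub, mul_inv_cancel₀ ht]

/-- The determinant for a tensor product. -/
theorem det_tensor {W₁ W₂ : Type*} [AddCommGroup W₁] [Module ℂ W₁] [AddCommGroup W₂] [Module ℂ W₂]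
    [FiniteDimensional ℂ W₂] {ι : Type*} [Fintype ι] (B : Basis ι ℂ W₁) (φ : W₁ →ₗ[ℂ] W₁)
    (α : ι → ℂ) (hφ : ∀ i, φ (B i) = α i • B i) (ψ : W₂ →ₗ[ℂ] W₂) (t : ℂ) :
    LinearMap.det (1 - t • TensorProduct.map φ ψ) =
      ∏ i, LinearMap.det (1 - (t * α i) • ψ) := by
  classical
  set B₂ := Module.finBasis ℂ W₂ with hB₂
  rw [← LinearMap.det_toMatrix (B.tensorProduct B₂)]
  have h1 : LinearMap.toMatrix (B.tensorProduct B₂) (B.tensorProduct B₂)
      (1 - t • TensorProduct.map φ ψ) =
      Matrix.reindex (Equiv.prodComm _ _) (Equiv.prodComm _ _)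
        (Matrix.blockDiagonal fun i => LinearMap.toMatrix B₂ B₂ (1 - (t * α i) • ψ)) := by
    have h2 : LinearMap.toMatrix B B φ = Matrix.diagonal α := by
      ext i j
      rw [LinearMap.toMatrix_apply, hφ, map_smul, B.repr_self, Matrix.diagonal_apply]
      simp only [Finsupp.smul_apply, Finsupp.single_apply, smul_eq_mul]
      by_cases h : i = j
      · subst h
        simp
      · rw [if_neg (fun h' => h h'.symm), if_neg h]
        simp
    rw [map_sub, map_smul, LinearMap.toMatrix_one, TensorProduct.toMatrix_map, h2]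
    ext ⟨i, k⟩ ⟨j, l⟩
    simp only [Matrix.sub_apply, Matrix.smul_apply, Matrix.kroneckerMap_apply, Matrix.reindex_apply,
      Matrix.submatrix_apply, Equiv.prodComm_symm, Equiv.prodComm_apply, Prod.swap_prod_mk,
      Matrix.blockDiagonal_apply, Matrix.one_apply, Matrix.diagonal_apply, Prod.mk.injEq,
      smul_eq_mul]
    by_cases h : i = j
    · subst h
      simp only [true_and, if_true]
      rw [map_sub, map_smul, LinearMap.toMatrix_one]
      simp only [Matrix.sub_apply, Matrix.smul_apply, Matrix.one_apply, smul_eq_mul]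
      ring
    · simp [h]
  rw [h1, Matrix.det_reindex_self, Matrix.det_blockDiagonal]
  refine Finset.prod_congr rfl fun i _ => ?_
  rw [LinearMap.det_toMatrix]

/-- The order of one factor. -/
theorem order_factor (q : ℝ) (hq : 1 < q) (c : ℤ) (α : ℂ) :
    MeromorphicAt (fun s : ℂ => 1 - (q : ℂ) ^ (-s) * α) (c : ℂ) ∧
    meromorphicOrderAt (fun s : ℂ => 1 - (q : ℂ) ^ (-s) * α) (c : ℂ) =
      if α = (q : ℂ) ^ c then 1 else 0 := by
  have hq0 : (q : ℂ) ≠ 0 := by exact_mod_cast (by linarith : q ≠ 0)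
  have hd : ∀ s : ℂ, HasDerivAt (fun s : ℂ => 1 - (q : ℂ) ^ (-s) * α)
      (- ((q : ℂ) ^ (-s) * Complex.log q * (-1) * α)) s := by
    intro s
    have h1 : HasDerivAt (fun s : ℂ => (q : ℂ) ^ (-s)) ((q : ℂ) ^ (-s) * Complex.log q * (-1)) s :=
      HasDerivAt.const_cpow (hasDerivAt_neg s) (Or.inl hq0)
    exact (h1.mul_const α).const_sub 1
  have han : AnalyticAt ℂ (fun s : ℂ => 1 - (q : ℂ) ^ (-s) * α) (c : ℂ) :=
    (Differentiable.analyticAt (fun s => (hd s).differentiableAt) _)
  have hpow : (q : ℂ) ^ (-(c : ℂ)) = ((q : ℂ) ^ c)⁻¹ := by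
    rw [Complex.cpow_neg, Complex.cpow_intCast]
  refine ⟨han.meromorphicAt, ?_⟩
  rw [han.meromorphicOrderAt_eq]
  have h3 := zpow_ne_zero c hq0
  by_cases h : α = (q : ℂ) ^ c
  · rw [if_pos h]
    have h1 : (fun s : ℂ => 1 - (q : ℂ) ^ (-s) * α) (c : ℂ) = 0 := by
      simp only
      rw [hpow, h, inv_mul_cancel₀ h3, sub_self]
    have h2 : deriv (fun s : ℂ => 1 - (q : ℂ) ^ (-s) * α) (c : ℂ) ≠ 0 := by
      rw [(hd c).deriv, hpow, h]
      have h3' : Complex.log q ≠ 0 := by
        rw [← Complex.ofReal_log (by linarith)]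
        exact_mod_cast (Real.log_pos hq).ne'
      have h4 : -(((q : ℂ) ^ c)⁻¹ * Complex.log q * (-1) * (q : ℂ) ^ c) = Complex.log q := by
        field_simp
      rw [h4]
      exact h3'
    rw [han.analyticOrderAt_eq_one_of_zero_deriv_ne_zero h1 h2]
    rfl
  · rw [if_neg h]
    have h1 : (fun s : ℂ => 1 - (q : ℂ) ^ (-s) * α) (c : ℂ) ≠ 0 := by
      simp only
      rw [hpow]
      intro h2
      apply h
      rw [sub_eq_zero] at h2
      have h4 : (q : ℂ) ^ c * 1 = (q : ℂ) ^ c * (((q : ℂ) ^ c)⁻¹ * α) := by rw [← h2]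
      rw [mul_one, mul_inv_cancel_left₀ h3] at h4
      exact h4.symm
    rw [han.analyticOrderAt_eq_zero.2 h1]
    rfl

/-- The order of `det (1 - q ^ (-s) φ)` at an integer. -/
theorem order_det (q : ℝ) (hq : 1 < q) (c : ℤ) {W : Type*} [AddCommGroup W] [Module ℂ W]
    [FiniteDimensional ℂ W] (φ : W →ₗ[ℂ] W) (α : ℂ) :
    open Classical in
    MeromorphicAt (fun s : ℂ => LinearMap.det (1 - ((q : ℂ) ^ (-s) * α) • φ)) (c : ℂ) ∧
    meromorphicOrderAt (fun s : ℂ => LinearMap.det (1 - ((q : ℂ) ^ (-s) * α) • φ)) (c : ℂ) =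
      ((φ.charpoly.roots.countP fun γ => α * γ = (q : ℂ) ^ c : ℕ) : WithTop ℤ) := by
  classical
  have h1 : (fun s : ℂ => LinearMap.det (1 - ((q : ℂ) ^ (-s) * α) • φ)) = fun s : ℂ =>
      (φ.charpoly.roots.map fun γ => 1 - (q : ℂ) ^ (-s) * (α * γ)).prod := by
    funext s
    rw [det_one_sub_eq]
    congr 1
    refine Multiset.map_congr rfl fun γ _ => ?_
    rw [mul_assoc]
  rw [h1]
  generalize φ.charpoly.roots = M
  induction M using Multiset.induction_on with
  | empty =>
    simp only [Multiset.map_zero, Multiset.prod_zero, Multiset.countP_zero, Nat.cast_zero]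
    refine ⟨MeromorphicAt.const 1 _, ?_⟩
    have h2 : AnalyticAt ℂ (fun _ : ℂ => (1 : ℂ)) (c : ℂ) := analyticAt_const
    rw [h2.meromorphicOrderAt_eq, h2.analyticOrderAt_eq_zero.2 one_ne_zero]
    rfl
  | cons γ M ih =>
    obtain ⟨h2, h3⟩ := order_factor q hq c (α * γ)
    have h4 : (fun s : ℂ => ((γ ::ₘ M).map fun γ => 1 - (q : ℂ) ^ (-s) * (α * γ)).prod) =
        (fun s : ℂ => 1 - (q : ℂ) ^ (-s) * (α * γ)) *
          fun s : ℂ => (M.map fun γ => 1 - (q : ℂ) ^ (-s) * (α * γ)).prod := by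
      funext s
      simp
    rw [h4]
    refine ⟨h2.mul ih.1, ?_⟩
    rw [meromorphicOrderAt_mul h2 ih.1, h3, ih.2, Multiset.countP_cons]
    split_ifs
    · push_cast
      rw [add_comm]
    · push_cast
      rw [add_comm]

end Pool.Agent.H857.HK
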