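import Pool.Agent.H857.HK.ZDefs
import Pool.Agent.H857.HK.Det
import Pool.Graph.R_seed8.Y1.CT.Kun

/-!
# Orders of poles of the zeta functions of products
-/

set_option autoImplicit false
set_option linter.unusedSectionVars false

namespace Pool.Agent.H857.HK

open Module Polynomial Pool.Agent.Y1.CT Pool.Agent.W484.HS

lemma exists_pair {X : Type*} (P : X → X → Prop) (L : List X)
    (h : ¬ L.Pairwise (fun y y' => ¬ P y y')) : ∃ y y' L', L.Perm (y :: y' :: L') ∧ P y y' := by
  classical
  induction L with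
  | nil => exact absurd List.Pairwise.nil h
  | cons y L ih =>
    by_cases h1 : ∃ y' ∈ L, P y y'
    · obtain ⟨y', hy', h2⟩ := h1
      exact ⟨y, y', _, (List.perm_cons_erase hy').cons y, h2⟩
    · push Not at h1
      obtain ⟨u, u', L', h2, h3⟩ := ih fun h2 => h (List.Pairwise.cons h1 h2)
      refine ⟨u, u', y :: L', ?_, h3⟩
      refine (h2.cons y).trans ?_
      exact (List.Perm.swap u y (u' :: L')).trans ((List.Perm.swap u' y L').cons u)

variable {I : Type} {q : ℕ} {f : I → ℤ[X]} {R : ℂ → Prop}

/-- The roots. -/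
abbrev Rt (f : I → ℤ[X]) : Type := {z : ℂ // ∃ i, aeval z (f i) = 0}

/-- Products of roots related to a number with the property `R` are powers of `q ^ s`. -/
lemma prod_roots (hq : 1 < q) (hR : NoRel f q R) {s : ℕ} (hs : 0 < s) {γ : ℂ} (hγ : R γ) :
    ∀ (n : ℕ) (L : List (Rt f)), L.length = n → ∀ c : ℤ,
      (L.map fun z : Rt f => (z : ℂ) ^ s).prod * γ = ((q : ℂ) ^ s) ^ c →
      ∃ i : ℕ, n = 2 * i ∧ (L.map fun z : Rt f => (z : ℂ) ^ s).prod = ((q : ℂ) ^ s) ^ i := by
  classical
  have hq0 : (q : ℂ) ≠ 0 := by exact_mod_cast (by omega : q ≠ 0)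
  have hQ0 : (q : ℂ) ^ s ≠ 0 := pow_ne_zero _ hq0
  intro n
  induction n using Nat.strong_induction_on with
  | _ n ih =>
    intro L hL c hrel
    rcases Nat.eq_zero_or_pos n with hn | hn
    · subst hn
      obtain rfl : L = [] := List.length_eq_zero_iff.1 hL
      exact ⟨0, rfl, by simp⟩
    · have h1 := hR.pair s hs γ hγ n c 1 one_pos hn L hL (by rw [pow_one, pow_one]; exact hrel)
      obtain ⟨y, y', L', hperm, hyy⟩ := exists_pair
        (fun y y' : Rt f => (y : ℂ) ^ s * (y' : ℂ) ^ s = (q : ℂ) ^ s) L h1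
      have hprod : (L.map fun z : Rt f => (z : ℂ) ^ s).prod =
          (q : ℂ) ^ s * (L'.map fun z : Rt f => (z : ℂ) ^ s).prod := by
        rw [(hperm.map _).prod_eq, List.map_cons, List.map_cons, List.prod_cons, List.prod_cons,
          ← mul_assoc, hyy]
      have hlen : n = L'.length + 2 := by
        rw [← hL, hperm.length_eq]
        simp
      obtain ⟨i, hi1, hi2⟩ := ih L'.length (by omega) L' rfl (c - 1) (by
        apply mul_left_cancel₀ hQ0
        rw [← mul_assoc, ← hprod, hrel, mul_comm, ← zpow_add_one₀ hQ0, sub_add_cancel])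
      refine ⟨i + 1, by omega, ?_⟩
      rw [hprod, hi2, pow_succ']

/-- Products of roots which are powers of `q`, up to a root of unity, are balanced. -/
lemma balanced' (hq : 1 < q) (hR : NoRel f q R) {s : ℕ} (hs : 0 < s) (x : ℂ) :
    ∀ (n : ℕ) (L : List (Rt f)), L.length = n → ∀ m : ℤ,
      (L.map fun z : Rt f => (z : ℂ)).prod ^ s = ((q : ℂ) ^ m) ^ s →
        open Classical in (L.map fun z : Rt f => (z : ℂ)).count x =
          (L.map fun z : Rt f => (z : ℂ)).count (q / x) := by
  classical
  have hq0 : (q : ℂ) ≠ 0 := by exact_mod_cast (by omega : q ≠ 0)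
  intro n
  induction n using Nat.strong_induction_on with
  | _ n ih =>
    intro L hL m hrel
    rcases Nat.eq_zero_or_pos n with hn | hn
    · subst hn
      obtain rfl : L = [] := List.length_eq_zero_iff.1 hL
      simp
    · have h1 := hR.pair 1 one_pos 1 hR.one n m s hs hn L hL (by
        have h5 : (L.map fun z : Rt f => (z : ℂ) ^ 1) = L.map fun z : Rt f => (z : ℂ) := by
          simp
        rw [mul_one, h5, hrel, pow_one])
      obtain ⟨y, y', L', hperm, hyy⟩ := exists_pair
        (fun y y' : Rt f => (y : ℂ) ^ 1 * (y' : ℂ) ^ 1 = (q : ℂ) ^ 1) L h1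
      rw [pow_one, pow_one, pow_one] at hyy
      have hy0 : (y : ℂ) ≠ 0 := by
        intro h0
        rw [h0, zero_mul] at hyy
        exact hq0 hyy.symm
      have hlen : n = L'.length + 2 := by
        rw [← hL, hperm.length_eq]
        simp
      have hprod : (L.map fun z : Rt f => (z : ℂ)).prod =
          q * (L'.map fun z : Rt f => (z : ℂ)).prod := by
        rw [(hperm.map _).prod_eq, List.map_cons, List.map_cons, List.prod_cons, List.prod_cons,
          ← mul_assoc, hyy]
      have h3 := ih L'.length (by omega) L' rfl (m - 1) (by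
          have h4 : ((q : ℂ)) ^ s ≠ 0 := pow_ne_zero _ hq0
          apply mul_left_cancel₀ h4
          rw [← mul_pow, ← hprod, hrel, ← mul_pow, mul_comm (q : ℂ), ← zpow_add_one₀ hq0,
            sub_add_cancel])
      have hc := fun z => (hperm.map fun z : Rt f => (z : ℂ)).count_eq z
      rw [hc, hc, List.map_cons, List.map_cons, List.count_cons, List.count_cons, List.count_cons,
        List.count_cons, h3]
      have h4 : (y' : ℂ) = q / y := by rw [← hyy, mul_div_cancel_left₀ _ hy0]
      have h5 : ((y' : ℂ) == x) = ((y : ℂ) == q / x) := by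
        rw [Bool.eq_iff_iff, beq_iff_eq, beq_iff_eq, h4]
        constructor
        · intro h
          rw [← h, div_div_cancel₀ hq0]
        · intro h
          rw [h, div_div_cancel₀ hq0]
      have h6 : ((y : ℂ) == x) = ((y' : ℂ) == q / x) := by
        rw [Bool.eq_iff_iff, beq_iff_eq, beq_iff_eq, h4]
        constructor
        · intro h
          rw [h]
        · intro h
          have h7 := congrArg (fun z => (q : ℂ) / z) h
          rwa [div_div_cancel₀ hq0, div_div_cancel₀ hq0] at h7
      rw [h5, h6]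
      omega

lemma exists_lift (f : I → ℤ[X]) (L : List ℂ) (h : ∀ z ∈ L, ∃ i, aeval z (f i) = 0) :
    ∃ L' : List (Rt f), L'.map (fun z : Rt f => (z : ℂ)) = L := by
  induction L with
  | nil => exact ⟨[], rfl⟩
  | cons z L ih =>
    obtain ⟨L', h1⟩ := ih fun z hz => h z (List.mem_cons_of_mem _ hz)
    exact ⟨⟨z, h z (by simp)⟩ :: L', by simp [h1]⟩

open Classical in
lemma balanced (hq : 1 < q) (hR : NoRel f q R) {s : ℕ} (hs : 0 < s) (L : List ℂ)
    (hroot : ∀ z ∈ L, ∃ i, aeval z (f i) = 0) (m : ℤ) (hrel : L.prod ^ s = ((q : ℂ) ^ m) ^ s)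
    (x : ℂ) : L.count x = L.count (q / x) := by
  obtain ⟨L', rfl⟩ := exists_lift f L hroot
  exact balanced' hq hR hs x _ L' rfl m hrel

end Pool.Agent.H857.HK
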