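import Pool.Agent.H857.HK.Zeta

/-!
# Orders of poles of the zeta functions of products: the formula
-/

set_option autoImplicit false
set_option linter.unusedSectionVars false

namespace Pool.Agent.H857.HK

open Module Polynomial Pool.Agent.Y1.CT Pool.Agent.W484.HS

section

variable {I : Type} {q : ℕ} {f : I → ℤ[X]} {R : ℂ → Prop}
  {V : Type} [AddCommGroup V] [Module ℂ V] [FiniteDimensional ℂ V] (F : V →ₗ[ℂ] V)

/-- The eigenspaces of the powers of Frobenius are spanned by products of classes of degree two. -/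
lemma finrank_eigen (hq : 1 < q) (hR : NoRel f q R)
    (hne : ∀ i, ∀ z : ℂ, aeval z (f i) = 0 → z ≠ 0 ∧ (q : ℂ) / z ≠ z)
    (hF : Submodule.span ℂ {v : V | ∃ i, ∃ z : ℂ, aeval z (f i) = 0 ∧ F v = z • v} = ⊤)
    {s : ℕ} (hs : 0 < s) (i : ℕ) :
    finrank ℂ (Module.End.eigenspace (exteriorPower.map (2 * i) (F ^ s)) (((q : ℂ) ^ i) ^ s)) =
      finrank ℂ (divisorProducts (q : ℂ) F i) := by
  classical
  have hspan : Submodule.span ℂ {v : V | ∃ μ ∈ {z : ℂ | ∃ i, aeval z (f i) = 0}, F v = μ • v} = ⊤ := by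
    rw [← hF]
    congr 1
    ext v
    constructor
    · rintro ⟨μ, ⟨i, hi⟩, h⟩
      exact ⟨i, μ, hi, h⟩
    · rintro ⟨i, μ, hi, h⟩
      exact ⟨μ, ⟨i, hi⟩, h⟩
  have hmem : ∀ x : ExteriorAlgebra ℂ V, x ∈ ⋀[ℂ]^(2 * i) V →
      ExteriorAlgebra.map (F ^ s) x = ((q : ℂ) ^ i) ^ s • x → x ∈ divisorProducts (q : ℂ) F i := by
    intro x hx h
    have h1 := Pool.Agent.H925R2.mem_adjoin_of_balanced F (q : ℂ)
      {z : ℂ | ∃ i, aeval z (f i) = 0} (by
        rintro z ⟨i, hi⟩
        exact hne i z hi) hspan i s (by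
        intro L hL hroot hrel z _
        have := balanced hq hR hs L hroot i (by rw [hrel, zpow_natCast]) z
        convert this) x hx h
    exact W521.Pole.mem_pow_of_mem_adjoin _ (fun y hy => hy.1) i x h1 hx
  have h1 : (Module.End.eigenspace (exteriorPower.map (2 * i) (F ^ s)) (((q : ℂ) ^ i) ^ s)).map
      (⋀[ℂ]^(2 * i) V).subtype = divisorProducts (q : ℂ) F i := by
    apply le_antisymm
    · rintro _ ⟨x, hx, rfl⟩
      rw [SetLike.mem_coe, Module.End.mem_eigenspace_iff] at hx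
      refine hmem _ x.2 ?_
      rw [Submodule.subtype_apply, ← W521.Pole.map_coe, hx]
      rfl
    · intro x hx
      have h2 : x ∈ ⋀[ℂ]^(2 * i) V :=
        W521.Pole.pow_le_exteriorPower _ (Submodule.span_le.2 fun y hy => hy.1) i hx
      have h3 := W521.Pole.divisorProducts_eigen (q : ℂ) F i x hx
      have h4 := W521.Pole.map_pow_apply F s x _ h3
      refine ⟨⟨x, h2⟩, ?_, rfl⟩
      rw [SetLike.mem_coe, Module.End.mem_eigenspace_iff]
      apply Subtype.ext
      rw [W521.Pole.map_coe, h4]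
      rfl
  rw [← h1]
  exact (LinearEquiv.finrank_eq (Submodule.equivMapOfInjective _
    (Submodule.subtype_injective _) _))

lemma span_pow {E : Set ℂ} (hF : Submodule.span ℂ {v : V | ∃ μ : ℂ, μ ∈ E ∧ F v = μ • v} = ⊤)
    (s : ℕ) :
    Submodule.span ℂ {v : V | ∃ μ : ℂ, μ ∈ {ν | ∃ μ ∈ E, ν = μ ^ s} ∧ (F ^ s) v = μ • v} = ⊤ := by
  rw [eq_top_iff, ← hF]
  refine Submodule.span_mono ?_
  rintro v ⟨μ, hμ, hv⟩
  refine ⟨μ ^ s, ⟨μ, hμ, rfl⟩, ?_⟩
  induction s with
  | zero => simp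
  | succ m ih => rw [pow_succ', Module.End.mul_apply, ih, map_smul, hv, smul_smul, pow_succ]

open Classical in
/-- The number of the eigenvalues of `φ` equal to `Q ^ c`. -/
noncomputable def mult {W : Type} [AddCommGroup W] [Module ℂ W] [FiniteDimensional ℂ W]
    (φ : W →ₗ[ℂ] W) (Q : ℂ) (c : ℤ) : ℕ := φ.charpoly.roots.countP fun γ => γ = Q ^ c

/-- The order for one pair of degrees. -/
lemma order_one (hq : 1 < q) (hR : NoRel f q R)
    (hne : ∀ i, ∀ z : ℂ, aeval z (f i) = 0 → z ≠ 0 ∧ (q : ℂ) / z ≠ z)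
    (hF : Submodule.span ℂ {v : V | ∃ i, ∃ z : ℂ, aeval z (f i) = 0 ∧ F v = z • v} = ⊤)
    {W : Type} [AddCommGroup W] [Module ℂ W] [FiniteDimensional ℂ W] (G : W →ₗ[ℂ] W)
    (hG : ∀ γ : ℂ, Module.End.HasEigenvalue G γ → R γ) {s : ℕ} (hs : 0 < s) (c : ℤ) (j : ℕ) :
    MeromorphicAt (fun z : ℂ => detOf (W := TensorProduct ℂ (⋀[ℂ]^j V) W)
      (TensorProduct.map (exteriorPower.map j (F ^ s)) G)
      ((((q : ℝ) ^ s : ℝ) : ℂ) ^ (-z))) (c : ℂ) ∧
    meromorphicOrderAt (fun z : ℂ => detOf (W := TensorProduct ℂ (⋀[ℂ]^j V) W)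
      (TensorProduct.map (exteriorPower.map j (F ^ s)) G)
      ((((q : ℝ) ^ s : ℝ) : ℂ) ^ (-z))) (c : ℂ) =
      (((if Even j then finrank ℂ (divisorProducts (q : ℂ) F (j / 2)) *
        mult G (((q : ℝ) ^ s : ℝ) : ℂ) (c - (j / 2 : ℕ)) else 0 : ℕ) : ℤ) : WithTop ℤ) := by
  classical
  have hq0 : (q : ℂ) ≠ 0 := by exact_mod_cast (by omega : q ≠ 0)
  have hQ1 : (1 : ℝ) < (q : ℝ) ^ s := one_lt_pow₀ (by exact_mod_cast hq) hs.ne'
  have hQc : ((((q : ℝ) ^ s : ℝ)) : ℂ) = (q : ℂ) ^ s := by push_cast; rfl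
  have hQ0 : (q : ℂ) ^ s ≠ 0 := pow_ne_zero _ hq0
  set E : Set ℂ := {z : ℂ | ∃ i, aeval z (f i) = 0} with hE
  have hspan : Submodule.span ℂ {v : V | ∃ μ : ℂ, μ ∈ E ∧ F v = μ • v} = ⊤ := by
    rw [← hF]
    congr 1
    ext v
    constructor
    · rintro ⟨μ, ⟨i, hi⟩, h⟩
      exact ⟨i, μ, hi, h⟩
    · rintro ⟨i, μ, hi, h⟩
      exact ⟨μ, ⟨i, hi⟩, h⟩
  obtain ⟨ι, _, B, α, hB, hα⟩ := W521.Pole.exists_extBasis (F ^ s) _ (span_pow F hspan s) j
  have h1 : (fun z : ℂ => detOf (W := TensorProduct ℂ (⋀[ℂ]^j V) W)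
      (TensorProduct.map (exteriorPower.map j (F ^ s)) G)
      ((((q : ℝ) ^ s : ℝ) : ℂ) ^ (-z))) = fun z : ℂ => ∏ J, LinearMap.det
        (1 - ((((q : ℝ) ^ s : ℝ) : ℂ) ^ (-z) * α J) • G) := by
    funext z
    exact det_tensor B _ α hB G _
  have h2 := fun J => order_det ((q : ℝ) ^ s) hQ1 c G (α J)
  rw [h1]
  refine ⟨MeromorphicAt.fun_prod fun J _ => (h2 J).1, ?_⟩
  rw [meromorphicOrderAt_fun_prod (fun J _ => (h2 J).1), Finset.sum_congr rfl fun J _ => (h2 J).2,
    ← Nat.cast_sum]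
  have h3 : ∑ J, (G.charpoly.roots.countP fun γ => α J * γ = ((((q : ℝ) ^ s : ℝ)) : ℂ) ^ c) =
      (if Even j then finrank ℂ (divisorProducts (q : ℂ) F (j / 2)) *
        mult G (((q : ℝ) ^ s : ℝ) : ℂ) (c - (j / 2 : ℕ)) else 0 : ℕ) := by
    -- the structure of the eigenvalues
    have h4 : ∀ J, ∃ L : List (Rt f), L.length = j ∧ α J = (L.map fun z : Rt f => (z : ℂ) ^ s).prod := by
      intro J
      obtain ⟨m, hm1, hm2⟩ := hα J
      choose μ hμ1 hμ2 using hm1
      refine ⟨List.ofFn fun l => (⟨μ l, hμ1 l⟩ : Rt f), by simp, ?_⟩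
      rw [hm2, List.map_ofFn, List.prod_ofFn]
      refine Finset.prod_congr rfl fun l _ => ?_
      simp [hμ2 l]
    have h5 : ∀ J, ∀ γ ∈ G.charpoly.roots, α J * γ = ((q : ℂ) ^ s) ^ c →
        Even j ∧ α J = ((q : ℂ) ^ s) ^ (j / 2) := by
      intro J γ hγ hrel
      obtain ⟨L, hL1, hL2⟩ := h4 J
      have hγ' : R γ := by
        apply hG
        rw [Module.End.hasEigenvalue_iff_isRoot_charpoly]
        exact (mem_roots'.1 hγ).2
      rw [hL2] at hrel
      obtain ⟨i, hi1, hi2⟩ := prod_roots hq hR hs hγ' j L hL1 c hrel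
      refine ⟨⟨i, by omega⟩, ?_⟩
      rw [hL2, hi2]
      congr 1
      omega
    rw [hQc]
    by_cases hj : Even j
    · rw [if_pos hj]
      obtain ⟨i, rfl⟩ : ∃ i, j = 2 * i := by
        obtain ⟨i, hi⟩ := hj
        exact ⟨i, by omega⟩
      have h6 : 2 * i / 2 = i := by omega
      rw [h6] at h5 ⊢
      have h7 : ∀ J, (G.charpoly.roots.countP fun γ => α J * γ = ((q : ℂ) ^ s) ^ c) =
          if α J = ((q : ℂ) ^ s) ^ i then mult G ((q : ℂ) ^ s) (c - i) else 0 := by
        intro J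
        by_cases h8 : α J = ((q : ℂ) ^ s) ^ i
        · rw [if_pos h8, mult]
          refine Multiset.countP_congr rfl fun γ _ => ?_
          rw [h8, zpow_sub₀ hQ0, zpow_natCast, eq_div_iff (pow_ne_zero _ hQ0), mul_comm]
        · rw [if_neg h8, Multiset.countP_eq_zero]
          intro γ hγ h9
          exact h8 (h5 J γ hγ h9).2
      rw [Finset.sum_congr rfl fun J _ => h7 J, Finset.sum_ite, Finset.sum_const_zero, add_zero,
        Finset.sum_const, smul_eq_mul]
      congr 1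
      rw [← finrank_eigen F hq hR hne hF hs i, W521.Pole.finrank_eigenspace B _ α hB,
        Nat.card_eq_fintype_card, Fintype.card_subtype]
      congr 1
      refine Finset.filter_congr fun J _ => ?_
      rw [pow_right_comm]
    · rw [if_neg hj]
      refine Finset.sum_eq_zero fun J _ => ?_
      rw [Multiset.countP_eq_zero]
      intro γ hγ h9
      exact hj (h5 J γ hγ h9).1
  rw [h3]
  rfl

/-- **The orders of the poles of the zeta functions of products.** -/
theorem polesOfProducts (hq : 1 < q) (hR : NoRel f q R)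
    (hne : ∀ i, ∀ z : ℂ, aeval z (f i) = 0 → z ≠ 0 ∧ (q : ℂ) / z ≠ z) :
    PolesOfProducts q f R := by
  classical
  intro V _ _ _ F hF N W _ _ _ G hG s hs
  have hQ1 : (1 : ℝ) < (q : ℝ) ^ s := one_lt_pow₀ (by exact_mod_cast hq) hs.ne'
  set Q : ℂ := (((q : ℝ) ^ s : ℝ) : ℂ) with hQ
  refine ⟨fun c => ∑ n ∈ Finset.range (N + 1), (-1 : ℤ) ^ n * (mult (G n) Q c : ℤ), fun c => ?_,
    fun c => ?_⟩
  · have h1 : ∀ n, MeromorphicAt (fun z : ℂ => detOf (G n) (Q ^ (-z)) ^ ((-1 : ℤ) ^ (n + 1))) (c : ℂ) ∧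
        meromorphicOrderAt (fun z : ℂ => detOf (G n) (Q ^ (-z)) ^ ((-1 : ℤ) ^ (n + 1))) (c : ℂ) =
          (((-1 : ℤ) ^ (n + 1) * (mult (G n) Q c : ℤ) : ℤ) : WithTop ℤ) := by
      intro n
      obtain ⟨h2, h3⟩ := order_det ((q : ℝ) ^ s) hQ1 c (G n) 1
      have h4 : (fun z : ℂ => detOf (G n) (Q ^ (-z))) =
          fun z : ℂ => LinearMap.det (1 - ((((q : ℝ) ^ s : ℝ) : ℂ) ^ (-z) * 1) • G n) := by
        funext z
        rw [mul_one]
        rfl
      rw [← h4] at h2 h3
      refine ⟨h2.fun_zpow _, ?_⟩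
      rw [fun_meromorphicOrderAt_zpow h2, h3, mult]
      have h5 : (fun γ : ℂ => 1 * γ = ((((q : ℝ) ^ s : ℝ)) : ℂ) ^ c) = fun γ => γ = Q ^ c := by
        funext γ
        rw [one_mul]
      simp only [one_mul]
      rfl
    change meromorphicOrderAt (fun z : ℂ => ∏ n ∈ Finset.range (N + 1),
      detOf (G n) (Q ^ (-z)) ^ ((-1 : ℤ) ^ (n + 1))) (c : ℂ) = _
    rw [meromorphicOrderAt_fun_prod (fun n _ => (h1 n).1), Finset.sum_congr rfl fun n _ => (h1 n).2,
      ← WithTop.coe_sum]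
    congr 1
    rw [← Finset.sum_neg_distrib]
    refine Finset.sum_congr rfl fun n _ => ?_
    rw [pow_succ]
    ring
  · set e : ℕ → ℕ := fun i => finrank ℂ (divisorProducts (q : ℂ) F i) with he
    set d := finrank ℂ V with hd
    have h1 : ∀ j, ∀ n ∈ Finset.range (N + 1), MeromorphicAt (fun z : ℂ =>
        detOf (W := TensorProduct ℂ (⋀[ℂ]^j V) (W n))
          (TensorProduct.map (exteriorPower.map j (F ^ s)) (G n)) (Q ^ (-z)) ^
            ((-1 : ℤ) ^ (j + n + 1))) (c : ℂ) ∧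
        meromorphicOrderAt (fun z : ℂ =>
        detOf (W := TensorProduct ℂ (⋀[ℂ]^j V) (W n))
          (TensorProduct.map (exteriorPower.map j (F ^ s)) (G n)) (Q ^ (-z)) ^
            ((-1 : ℤ) ^ (j + n + 1))) (c : ℂ) =
          (((-1 : ℤ) ^ (j + n + 1) * (if Even j then (e (j / 2) : ℤ) *
            mult (G n) Q (c - (j / 2 : ℕ)) else 0) : ℤ) : WithTop ℤ) := by
      intro j n hn
      obtain ⟨h2, h3⟩ := order_one F hq hR hne hF (G n)
        (hG n (by rw [Finset.mem_range] at hn; omega)) hs c j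
      refine ⟨h2.fun_zpow _, ?_⟩
      rw [fun_meromorphicOrderAt_zpow h2, h3]
      split_ifs
      · rw [Nat.cast_mul]
        rfl
      · rw [Nat.cast_zero]
        rfl
    change meromorphicOrderAt (fun z : ℂ => ∏ j ∈ Finset.range (d + 1),
      ∏ n ∈ Finset.range (N + 1), detOf (W := TensorProduct ℂ (⋀[ℂ]^j V) (W n))
          (TensorProduct.map (exteriorPower.map j (F ^ s)) (G n)) (Q ^ (-z)) ^
            ((-1 : ℤ) ^ (j + n + 1))) (c : ℂ) = _
    rw [meromorphicOrderAt_fun_prod (fun j _ => MeromorphicAt.fun_prod fun n hn => (h1 j n hn).1)]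
    have h2 : ∀ j, meromorphicOrderAt (fun z : ℂ =>
      ∏ n ∈ Finset.range (N + 1), detOf (W := TensorProduct ℂ (⋀[ℂ]^j V) (W n))
          (TensorProduct.map (exteriorPower.map j (F ^ s)) (G n)) (Q ^ (-z)) ^
            ((-1 : ℤ) ^ (j + n + 1))) (c : ℂ) =
        ((-(if Even j then (e (j / 2) : ℤ) * ∑ n ∈ Finset.range (N + 1),
          (-1 : ℤ) ^ n * (mult (G n) Q (c - (j / 2 : ℕ)) : ℤ) else 0) : ℤ) : WithTop ℤ) := by
      intro j
      rw [meromorphicOrderAt_fun_prod (fun n hn => (h1 j n hn).1),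
        Finset.sum_congr rfl fun n hn => (h1 j n hn).2, ← WithTop.coe_sum]
      congr 1
      by_cases hj : Even j
      · simp only [if_pos hj]
        rw [Finset.mul_sum, ← Finset.sum_neg_distrib]
        refine Finset.sum_congr rfl fun n _ => ?_
        rw [pow_succ, pow_add, hj.neg_one_pow]
        ring
      · simp only [if_neg hj]
        simp
    rw [Finset.sum_congr rfl fun j _ => h2 j, ← WithTop.coe_sum]
    congr 1
    rw [Finset.sum_neg_distrib, neg_inj]
    have hzero : ∀ i, d < 2 * i → e i = 0 := by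
      intro i hi
      have h3 : divisorProducts (q : ℂ) F i ≤ ⋀[ℂ]^(2 * i) V :=
        W521.Pole.pow_le_exteriorPower _ (Submodule.span_le.2 fun y hy => hy.1) i
      have h4 : finrank ℂ (⋀[ℂ]^(2 * i) V) = 0 := by
        rw [exteriorPower.finrank_eq, Nat.choose_eq_zero_of_lt hi]
      have h5 := Submodule.finrank_mono h3
      simp only [he]
      omega
    symm
    rw [← Finset.sum_subset (Finset.filter_subset (fun i => 2 * i < d + 1) (Finset.range (d + 1)))]
    · rw [← Finset.sum_subset (Finset.filter_subset Even (Finset.range (d + 1)))]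
      · refine Finset.sum_nbij (fun i => 2 * i) ?_ ?_ ?_ ?_
        · intro i hi
          rw [Finset.mem_filter] at hi ⊢
          exact ⟨Finset.mem_range.2 hi.2, even_two_mul i⟩
        · intro i _ i' _ h
          simp only at h
          omega
        · intro j hj
          rw [Finset.mem_coe, Finset.mem_filter, Finset.mem_range] at hj
          obtain ⟨i, hi⟩ := hj.2
          refine ⟨i, ?_, by simp only; omega⟩
          rw [Finset.mem_coe, Finset.mem_filter, Finset.mem_range]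
          omega
        · intro i _
          rw [if_pos (even_two_mul i)]
          have h3 : 2 * i / 2 = i := by omega
          rw [h3]
      · intro j hj1 hj2
        rw [if_neg]
        intro h3
        exact hj2 (Finset.mem_filter.2 ⟨hj1, h3⟩)
    · intro i hi1 hi2
      have h3 : e i = 0 := by
        apply hzero
        rw [Finset.mem_filter, not_and] at hi2
        have := hi2 hi1
        omega
      change (e i : ℤ) * _ = 0
      rw [h3]
      simp

end

end Pool.Agent.H857.HK
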